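import Mathlib

set_option autoImplicit false

namespace Pool.Agent.Results.MP_e59eee_co.Counter

/-- Directed subsets: nonempty, and any two members have an upper bound in the set. -/
def Dir {P : Type} [PartialOrder P] (D : Set P) : Prop :=
  D.Nonempty ∧ ∀ a ∈ D, ∀ b ∈ D, ∃ c ∈ D, a ≤ c ∧ b ≤ c

/-- Compact elements. -/
def Cpt {P : Type} [PartialOrder P] (c : P) : Prop :=
  ∀ D : Set P, Dir D → ∀ s, IsLUB D s → c ≤ s → ∃ d ∈ D, c ≤ d

/-- Algebraic posets: up-complete, and every element is the join of a directed set of compact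
elements. -/
def Algebraic (P : Type) [PartialOrder P] : Prop :=
  (∀ D : Set P, Dir D → ∃ s, IsLUB D s) ∧ ∀ x : P, ∃ D : Set P, Dir D ∧ (∀ d ∈ D, Cpt d) ∧ IsLUB D x

section
variable {Q : Type} [PartialOrder Q]

def uni (D : Set (Order.Ideal Q)) (h : Dir D) : Order.Ideal Q where
  carrier := {q | ∃ I ∈ D, q ∈ I}
  lower' := fun _ _ hab ⟨I, hI, ha⟩ => ⟨I, hI, I.lower hab ha⟩
  nonempty' := by
    obtain ⟨I, hI⟩ := h.1
    obtain ⟨q, hq⟩ := I.nonempty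
    exact ⟨q, I, hI, hq⟩
  directed' := by
    rintro a ⟨I, hI, ha⟩ b ⟨J, hJ, hb⟩
    obtain ⟨K, hK, h1, h2⟩ := h.2 I hI J hJ
    obtain ⟨c, hc, h3⟩ := K.directed a (h1 ha) b (h2 hb)
    exact ⟨c, ⟨K, hK, hc⟩, h3⟩

theorem uni_lub (D : Set (Order.Ideal Q)) (h : Dir D) : IsLUB D (uni D h) :=
  ⟨fun I hI _ hq => ⟨I, hI, hq⟩, fun _ hJ _ ⟨_, hI, hq⟩ => hJ hI hq⟩

theorem alg : Algebraic (Order.Ideal Q) := by
  refine ⟨fun D h => ⟨_, uni_lub D h⟩, fun x => ⟨Order.Ideal.principal '' (x : Set Q), ⟨?_, ?_⟩, ?_, ?_, ?_⟩⟩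
  · exact x.nonempty.image _
  · rintro _ ⟨a, ha, rfl⟩ _ ⟨b, hb, rfl⟩
    obtain ⟨c, hc, h1, h2⟩ := x.directed a ha b hb
    exact ⟨_, ⟨c, hc, rfl⟩, Order.Ideal.principal_le_iff.2 h1, Order.Ideal.principal_le_iff.2 h2⟩
  · rintro _ ⟨a, -, rfl⟩ D hD s hs h
    rw [hs.unique (uni_lub D hD)] at h
    obtain ⟨I, hI, ha⟩ := Order.Ideal.principal_le_iff.1 h
    exact ⟨I, hI, Order.Ideal.principal_le_iff.2 ha⟩
  · rintro _ ⟨a, ha, rfl⟩
    exact Order.Ideal.principal_le_iff.2 ha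
  · intro J hJ a ha
    exact Order.Ideal.principal_le_iff.1 (hJ ⟨a, ha, rfl⟩)
end

structure Pt where
  n : ℕ
  r : ℚ

instance : PartialOrder Pt where
  le p q := p = q ∨ (p.n < q.n ∧ p.r < q.r)
  le_refl _ := Or.inl rfl
  le_trans a b c := by
    rintro (rfl | h) (rfl | h')
    exacts [Or.inl rfl, Or.inr h', Or.inr h, Or.inr ⟨h.1.trans h'.1, h.2.trans h'.2⟩]
  le_antisymm a b := by
    rintro (rfl | h) (h' | h')
    exacts [rfl, rfl, h'.symm, absurd h.1 h'.1.le.not_gt]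

theorem le_def (p q : Pt) : p ≤ q ↔ p = q ∨ (p.n < q.n ∧ p.r < q.r) := Iff.rfl

def cut (t : ℚ) : Order.Ideal Pt where
  carrier := {p | p.r < t}
  lower' := by
    rintro a b (rfl | h) ha
    exacts [ha, h.2.trans ha]
  nonempty' := ⟨⟨0, t - 1⟩, by simp⟩
  directed' := by
    intro a ha b hb
    simp only [Set.mem_ofPred_eq] at ha hb
    obtain ⟨s, h1, h2⟩ := exists_between (max_lt ha hb)
    rw [max_lt_iff] at h1
    exact ⟨⟨a.n + b.n + 1, s⟩, h2, Or.inr ⟨by dsimp only; omega, h1.1⟩, Or.inr ⟨by dsimp only; omega, h1.2⟩⟩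

theorem mem_cut (t : ℚ) (p : Pt) : p ∈ cut t ↔ p.r < t := Iff.rfl

theorem up (U : Order.Ideal Pt) (hU : cut 0 ≤ U) (p : Pt) (hp : p ∈ U) (m : ℕ) :
    ∃ q ∈ U, m < q.n ∧ p.r < q.r := by
  obtain ⟨q, hq, h1, h2⟩ := U.directed p hp ⟨p.n + m + 1, -1⟩ (hU ((mem_cut _ _).2 (by norm_num)))
  have h3 : p.n + m + 1 ≤ q.n := by
    rcases h2 with rfl | h2
    exacts [le_rfl, h2.1.le]
  rcases h1 with rfl | h1
  · omega
  · exact ⟨q, hq, by omega, h1.2⟩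

theorem down (U : Order.Ideal Pt) (hU : cut 0 ≤ U) (p : Pt) (hp : p ∈ U) (p' : Pt) (h : p'.r ≤ p.r) :
    p' ∈ U := by
  obtain ⟨q, hq, h1, h2⟩ := up U hU p hp p'.n
  exact U.lower (show p' ≤ q from Or.inr ⟨h1, h.trans_lt h2⟩) hq

theorem result : ∃ (P : Type) (_ : PartialOrder P), Algebraic P ∧
    ∃ x y : P, x < y ∧ ∀ u v : P, x ≤ u → u < v → v ≤ y → ∃ w, u < w ∧ w < v := by
  refine ⟨Order.Ideal Pt, inferInstance, alg, cut 0, cut 1, ?_, ?_⟩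
  · refine lt_of_le_not_ge (fun p hp => (mem_cut _ _).2 (lt_trans hp one_pos)) fun h => ?_
    have := @h ⟨0, 0⟩ ((mem_cut _ _).2 one_pos)
    exact lt_irrefl (0 : ℚ) this
  · intro u v hu huv _
    have hv := hu.trans huv.le
    obtain ⟨p, hpv, hpu⟩ : ∃ p, p ∈ v ∧ p ∉ u := by
      by_contra hn
      push Not at hn
      exact huv.not_ge fun p hp => hn p hp
    obtain ⟨q, hq, -, hpq⟩ := up v hv p hpv 0
    obtain ⟨s, h1, h2⟩ := exists_between hpq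
    refine ⟨cut s, lt_of_le_not_ge (fun a ha => ?_) fun h => hpu (h h1),
      lt_of_le_not_ge (fun a ha => down v hv q hq a (le_of_lt (lt_trans ha h2))) fun h => ?_⟩
    · by_contra hn
      exact hpu (down u hu a ha p (h1.le.trans (not_lt.1 hn)))
    · exact lt_asymm h2 (h hq)

end Pool.Agent.Results.MP_e59eee_co.Counter
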